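import Pool.Agent.Q128.Mixing

/-!
# A connected non-bipartite graph whose circular mixing threshold is not attained

The graph is the cube `K_{4,4} - 4 K_2` joined by an edge to a triangle. It is `(k, q)`-mixing for
`k > 4 q`, so that `M_c(G) = 4`, but it is not `(4, 1)`-mixing, since the cube has a frozen
4-colouring.
-/

set_option autoImplicit false

namespace Pool.Agent.Results.MP_067019_co.NotAttained

open Q128.Mixing

/-- **A non-bipartite graph whose circular mixing threshold is not attained.** -/
theorem result : ∃ (V : Type) (_ : Fintype V) (G : SimpleGraph V), G.Connected ∧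
    ¬ G.Colorable 2 ∧ circularMixingThreshold G = 4 ∧ ¬ IsMixing G 4 1 ∧
    circularMixingThreshold G ∉ mixingRatios G := by
  refine ⟨_, inferInstance, Ex, ex_connected, ex_not_colorable, ex_circular, ex_not_mixing, ?_⟩
  rw [ex_circular]
  exact not_mem_of_le le_rfl

end Pool.Agent.Results.MP_067019_co.NotAttained
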